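import Pool.Agent.H.MP_ae9099_mp.C
import Pool.Agent.H.MP_ae9099_mp.D

namespace Pool.Agent.H.MP_750254_mp

open Finset Filter Topology ComplexConjugate Pool.Agent.H.MP_ae9099_mp

abbrev C := Bool × Bool
abbrev V := List C

def tr : RTree V where
  root := []
  par := List.tail
  ch x := univ.image (· :: x)
  mem_ch u y := by
    cases u with
    | nil => simp
    | cons c l => simp [eq_comm]
  par_root := rfl
  reach y := by
    induction y with
    | nil => exact ⟨0, rfl⟩
    | cons c l ih => obtain ⟨n, hn⟩ := ih; exact ⟨n + 1, hn⟩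

def lab : V → Bool
  | [] => true
  | c :: _ => c.1

def pot (b : Bool) : ℝ := if b then 2 else -2

open Classical in
noncomputable def tt (x y : V) : ℂ := if tr.Adj x y then 1 else 0

theorem sum_ch {β : Type} [AddCommMonoid β] (x : V) (F : V → β) : ∑ y ∈ tr.ch x, F y = ∑ c : C, F (c :: x) :=
  Finset.sum_image fun _ _ _ _ h => (List.cons.inj h).1

theorem cons_mem (c : C) (x : V) : c :: x ∈ tr.ch x := Finset.mem_image.2 ⟨c, mem_univ _, rfl⟩

theorem tt1 (c : C) (x : V) : tt x (c :: x) = 1 := if_pos (Or.inr (cons_mem c x))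
theorem tt2 (c : C) (x : V) : tt (c :: x) x = 1 := if_pos (Or.inl (cons_mem c x))

theorem tt_sym (x y : V) : tt x y = conj (tt y x) := by
  unfold tt
  by_cases h : tr.Adj x y
  · rw [if_pos h, if_pos (show tr.Adj y x from Or.symm h), map_one]
  · rw [if_neg h, if_neg fun h' : tr.Adj y x => h (Or.symm h'), map_zero]

theorem hcount (x : V) (l : Bool) : ((tr.ch x).filter (fun u => lab u = l)).card = 2 := by
  rw [Finset.card_filter, sum_ch]
  cases l <;> simp [lab, Fintype.sum_prod_type]

theorem good : Good tr (fun _ => 1) tt := by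
  refine ⟨fun _ => one_pos, fun x y => by simpa using tt_sym x y, ⟨1, fun y u hu => ?_⟩, ⟨4, fun y => ?_⟩⟩
  · rw [tt, if_pos (show tr.Adj y u from Or.inr hu)]; simp
  · exact Finset.card_image_le.trans (by simp)

noncomputable def up (φ : V → ℂ) : V → ℂ
  | [] => 0
  | _ :: l => φ l

theorem op_eq (φ : V → ℂ) (x : V) :
    tr.op tt (fun x => pot (lab x)) φ x = ∑ c : C, φ (c :: x) + up φ x + pot (lab x) * φ x := by
  unfold RTree.op
  rw [sum_ch]
  simp only [tt1, one_mul]
  cases x with
  | nil => simp [tr, up]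
  | cons c l =>
    have := tt2 c l
    simp [tr, up] at this ⊢
    simp [this]

theorem cs (K a p : ℝ) (hp : 0 < p) (hK : 0 < K) : 2 * K * a ≤ K ^ 2 * p + a ^ 2 / p := by
  have : K ^ 2 * p + a ^ 2 / p - 2 * K * a = (K * p - a) ^ 2 / p := by field_simp; ring
  have h2 : 0 ≤ (K * p - a) ^ 2 / p := by positivity
  linarith

noncomputable def upN (g : Bool → ℝ) (N : V → ℝ) : V → ℝ
  | [] => 0
  | c :: l => N l / g c.1

theorem schur (s : ℝ) (hs : s = 1 ∨ s = -1) (φ : V → ℂ) (S : Finset V) (hφ : Summable fun y => ‖φ y‖ ^ 2) :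
    ∑ x ∈ S, ‖tr.op tt (fun x => pot (lab x)) φ x + 2 * s * φ x‖ ^ 2 ≤ (3 * √3 + 2) ^ 2 * ∑' y, ‖φ y‖ ^ 2 := by
  have h3 : √3 ^ 2 = 3 := Real.sq_sqrt (by norm_num)
  have h3' : 1 < √3 := Real.lt_sqrt_of_sq_lt (by norm_num)
  set g : Bool → ℝ := fun b => 2 * √3 - s * pot b with hg
  set d : Bool → ℝ := fun b => 2 + s * pot b with hd
  have hgp : ∀ b, 0 < g b := fun b => by
    rcases hs with rfl | rfl <;> cases b <;> simp [hg, pot] <;> linarith
  have hd0 : ∀ b, 0 ≤ d b := fun b => by
    rcases hs with rfl | rfl <;> cases b <;> simp [hd, pot] <;> norm_num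
  have hsum : ∑ c : C, (g c.1)⁻¹ = √3 := by
    have a1 := hgp true
    have a2 := hgp false
    have a3 : g true * g false = 8 := by
      rcases hs with rfl | rfl <;> simp [hg, pot] <;> nlinarith
    have a4 : g true + g false = 4 * √3 := by simp [hg, pot]; ring
    simp only [Fintype.sum_prod_type, Fintype.sum_bool]
    field_simp
    nlinarith
  set L := 3 * √3 + 2 with hL
  have hLp : 0 < L := by linarith
  set N : V → ℝ := fun y => ‖φ y‖ ^ 2 with hN
  have hN0 : ∀ y, 0 ≤ N y := fun y => sq_nonneg _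
  have pt : ∀ x, ‖tr.op tt (fun x => pot (lab x)) φ x + 2 * s * φ x‖ ^ 2 ≤
      L * (∑ c : C, g (lab (c :: x)) * N (c :: x) + upN g N x + d (lab x) * N x) := by
    intro x
    set K := ‖tr.op tt (fun x => pot (lab x)) φ x + 2 * s * φ x‖ with hK
    have k1 : K ≤ ∑ c : C, ‖φ (c :: x)‖ + ‖up φ x‖ + d (lab x) * ‖φ x‖ := by
      rw [hK, op_eq, add_assoc, ← add_mul]
      refine (norm_add_le _ _).trans (add_le_add ((norm_add_le _ _).trans (add_le_add (norm_sum_le _ _) le_rfl)) ?_)
      rw [norm_mul]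
      refine mul_le_mul_of_nonneg_right (le_of_eq ?_) (norm_nonneg _)
      rcases hs with rfl | rfl <;> cases lab x <;> simp [hd, pot] <;> norm_num
    have hR : 0 ≤ upN g N x := by
      cases x with
      | nil => exact le_rfl
      | cons c l => exact div_nonneg (hN0 _) (hgp _).le
    have hR2 : 0 ≤ ∑ c : C, g (lab (c :: x)) * N (c :: x) :=
      Finset.sum_nonneg fun c _ => mul_nonneg (hgp _).le (hN0 _)
    have hK0 : 0 ≤ K := norm_nonneg _
    rcases hK0.eq_or_lt with h0 | h0
    · rw [← h0]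
      have := mul_nonneg (hd0 (lab x)) (hN0 x)
      have h2 : 0 ≤ ∑ c : C, g (lab (c :: x)) * N (c :: x) + upN g N x + d (lab x) * N x := by linarith
      simpa using mul_nonneg hLp.le h2
    have hk : 0 < K / L := div_pos h0 hLp
    have k2 : 2 * (K / L) * ∑ c : C, ‖φ (c :: x)‖ ≤ (K / L) ^ 2 * √3 + ∑ c : C, g (lab (c :: x)) * N (c :: x) := by
      rw [← hsum, Finset.mul_sum, Finset.mul_sum, ← Finset.sum_add_distrib]
      refine Finset.sum_le_sum fun c _ => ?_
      have := cs (K / L) ‖φ (c :: x)‖ (g c.1)⁻¹ (inv_pos.2 (hgp _)) hk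
      rw [div_inv_eq_mul, mul_comm (‖φ (c :: x)‖ ^ 2)] at this
      exact this
    have k3 : 2 * (K / L) * ‖up φ x‖ ≤ (K / L) ^ 2 * g (lab x) + upN g N x := by
      cases x with
      | nil => simpa [up, upN] using mul_nonneg (sq_nonneg (K / L)) (hgp _).le
      | cons c l => exact cs _ _ _ (hgp _) hk
    have k4 := mul_le_mul_of_nonneg_left (cs (K / L) ‖φ x‖ 1 one_pos hk) (hd0 (lab x))
    have k5 : √3 + g (lab x) + d (lab x) = L := by simp only [hg, hd, hL]; ring
    have k6 := mul_le_mul_of_nonneg_left k1 (mul_pos two_pos hk).le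
    have k7 : 2 * (K / L) * K ≤ (K / L) ^ 2 * L +
        (∑ c : C, g (lab (c :: x)) * N (c :: x) + upN g N x + d (lab x) * N x) := by
      have k9 : (K / L) ^ 2 * L = (K / L) ^ 2 * √3 + (K / L) ^ 2 * g (lab x) + (K / L) ^ 2 * d (lab x) := by
        rw [← mul_add, ← mul_add, k5]
      have k10 : N x = ‖φ x‖ ^ 2 := rfl
      rw [k9, k10]
      linarith
    have k8 : K ^ 2 = L * (2 * (K / L) * K - (K / L) ^ 2 * L) := by field_simp; ring
    rw [k8]
    exact mul_le_mul_of_nonneg_left (by linarith) hLp.le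
  refine (Finset.sum_le_sum fun x _ => pt x).trans ?_
  rw [← Finset.mul_sum, sq, mul_assoc]
  refine mul_le_mul_of_nonneg_left ?_ hLp.le
  set B : Finset V := S ∪ S.image List.tail ∪ (S ×ˢ univ).image (fun p : V × C => p.2 :: p.1) with hB
  have b1 : ∑ x ∈ S, ∑ c : C, g (lab (c :: x)) * N (c :: x) ≤ ∑ y ∈ B, g (lab y) * N y := by
    rw [← Finset.sum_product' S univ fun x c => g (lab (c :: x)) * N (c :: x),
      ← Finset.sum_image (g := fun p : V × C => p.2 :: p.1) (f := fun y => g (lab y) * N y)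
        fun p _ q _ h => Prod.ext (List.cons.inj h).2 (List.cons.inj h).1]
    exact Finset.sum_le_sum_of_subset_of_nonneg Finset.subset_union_right
      fun y _ _ => mul_nonneg (hgp _).le (hN0 _)
  have b2 : ∑ x ∈ S, upN g N x ≤ ∑ y ∈ B, √3 * N y := by
    have e : ∀ y, √3 * N y = ∑ c : C, upN g N (c :: y) := fun y => by
      rw [← hsum, Finset.sum_mul]
      exact Finset.sum_congr rfl fun c _ => by simp only [upN]; ring
    simp only [e]
    rw [← Finset.sum_product' B univ fun x c => upN g N (c :: x),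
      ← Finset.sum_image (g := fun p : V × C => p.2 :: p.1) (f := upN g N)
        fun p _ q _ h => Prod.ext (List.cons.inj h).2 (List.cons.inj h).1]
    rw [← Finset.sum_erase S (a := []) (f := upN g N) rfl]
    refine Finset.sum_le_sum_of_subset_of_nonneg (fun y hy => ?_) fun y _ _ => ?_
    · cases y with
      | nil => simp at hy
      | cons c l =>
        refine Finset.mem_image.2 ⟨(l, c), Finset.mem_product.2 ⟨?_, mem_univ _⟩, rfl⟩
        exact Finset.mem_union_left _ (Finset.mem_union_right _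
          (Finset.mem_image.2 ⟨c :: l, Finset.mem_of_mem_erase hy, rfl⟩))
    · cases y with
      | nil => exact le_rfl
      | cons c l => exact div_nonneg (hN0 _) (hgp _).le
  have b3 : ∑ x ∈ S, d (lab x) * N x ≤ ∑ y ∈ B, d (lab y) * N y :=
    Finset.sum_le_sum_of_subset_of_nonneg (Finset.subset_union_left.trans Finset.subset_union_left)
      fun y _ _ => mul_nonneg (hd0 _) (hN0 _)
  have b4 : ∑ y ∈ B, g (lab y) * N y + ∑ y ∈ B, √3 * N y + ∑ y ∈ B, d (lab y) * N y = L * ∑ y ∈ B, N y := by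
    rw [← Finset.sum_add_distrib, ← Finset.sum_add_distrib, Finset.mul_sum]
    exact Finset.sum_congr rfl fun y _ => by simp only [hg, hd, hL]; ring
  have b5 := mul_le_mul_of_nonneg_left (hφ.sum_le_tsum B fun y _ => hN0 y) hLp.le
  rw [Finset.sum_add_distrib, Finset.sum_add_distrib]
  linarith

end Pool.Agent.H.MP_750254_mp
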