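import Pool.Agent.H.MP_750254_mp.A

namespace Pool.Agent.H.MP_750254_mp

open Finset Filter Topology ComplexConjugate Pool.Agent.H.MP_ae9099_mp

noncomputable abbrev HH := lp (fun _ : V => ℂ) 2

noncomputable abbrev ww : V → ℝ := fun x => pot (lab x)

theorem mem_iff (f : V → ℂ) : Memℓp f 2 ↔ Summable fun i => ‖f i‖ ^ 2 := by
  rw [memℓp_gen_iff (by norm_num)]
  simp

theorem nsq (φ : HH) : ‖φ‖ ^ 2 = ∑' y, ‖φ y‖ ^ 2 := by
  have := lp.norm_rpow_eq_tsum (p := 2) (by norm_num) φ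
  simpa using this

theorem opL_eq (s : ℝ) (φ : V → ℂ) (x : V) : opL tr tt ww (-(2 * s)) φ x = tr.op tt ww φ x + 2 * s * φ x := by
  show tr.op tt ww φ x - (-(2 * s)) * φ x = _
  ring

noncomputable def TL (s : ℝ) (hs : s = 1 ∨ s = -1) : HH →ₗ[ℂ] HH where
  toFun φ := ⟨opL tr tt ww (-(2 * s)) φ, (mem_iff _).2 (summable_of_sum_le (fun _ => sq_nonneg _) fun S => by
    simp only [opL_eq]
    exact schur s hs φ S ((mem_iff _).1 φ.2))⟩
  map_add' φ ψ := by
    refine lp.ext ?_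
    exact (opL tr tt ww (-(2 * s))).map_add φ ψ
  map_smul' c φ := by
    refine lp.ext ?_
    exact (opL tr tt ww (-(2 * s))).map_smul c φ

theorem TL_apply (s hs) (φ : HH) (x : V) : TL s hs φ x = tr.op tt ww φ x + 2 * s * φ x := opL_eq s φ x

theorem TL_bd (s hs) (φ : HH) : ‖TL s hs φ‖ ≤ (3 * √3 + 2) * ‖φ‖ := by
  refine le_of_sq_le_sq (le_trans (le_of_eq (nsq _)) ?_) (by positivity)
  rw [mul_pow, nsq]
  refine Real.tsum_le_of_sum_le (fun _ => sq_nonneg _) fun S => ?_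
  simp only [TL_apply]
  exact schur s hs φ S ((mem_iff _).1 φ.2)

noncomputable def TS (s : ℝ) (hs : s = 1 ∨ s = -1) : HH →L[ℂ] HH := (TL s hs).mkContinuous _ (TL_bd s hs)

noncomputable def TT : HH →L[ℂ] HH := TS 1 (Or.inl rfl) - algebraMap ℂ _ 2

theorem alg_apply (c : ℂ) (φ : HH) (x : V) : (algebraMap ℂ (HH →L[ℂ] HH) c φ) x = c * φ x := by
  rw [Algebra.algebraMap_eq_smul_one]; rfl

theorem TT_apply (φ : HH) (x : V) : TT φ x = tr.op tt ww φ x := by
  have h1 : TT φ x = TL 1 (Or.inl rfl) φ x - (algebraMap ℂ (HH →L[ℂ] HH) 2 φ) x := rfl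
  rw [h1, TL_apply, alg_apply]; simp

theorem TS_eq (s hs) : TS s hs = TT + algebraMap ℂ _ (2 * s : ℂ) := by
  refine ContinuousLinearMap.ext fun φ => lp.ext (funext fun x => ?_)
  have h1 : (TT + algebraMap ℂ _ (2 * s : ℂ)) φ x = TT φ x + (algebraMap ℂ (HH →L[ℂ] HH) (2 * s : ℂ) φ) x := rfl
  rw [h1, TT_apply, alg_apply]
  exact TL_apply s hs φ x

theorem spec_bd (s : ℝ) (hs : s = 1 ∨ s = -1) (E : ℝ) (h : (E : ℂ) ∈ spectrum ℂ TT) : |E + 2 * s| ≤ 3 * √3 + 2 := by
  have h1 : ((E + 2 * s : ℝ) : ℂ) ∈ spectrum ℂ (TS s hs) := by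
    rw [spectrum.mem_iff] at h ⊢
    rw [TS_eq, show ((E + 2 * s : ℝ) : ℂ) = E + 2 * s by push_cast; ring, map_add, add_sub_add_right_eq_sub]
    exact h
  have h2 := spectrum.norm_le_norm_mul_of_mem h1
  rw [Complex.norm_real, Real.norm_eq_abs] at h2
  have h3 : ‖TS s hs‖ ≤ 3 * √3 + 2 := LinearMap.mkContinuous_norm_le _ (by positivity) _
  have h4 : ‖(1 : HH →L[ℂ] HH)‖ ≤ 1 := ContinuousLinearMap.norm_id_le
  exact h2.trans ((mul_le_mul h3 h4 (norm_nonneg _) (by positivity)).trans (by simp))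

noncomputable def rv (z : ℂ) : V → ℂ := fun x => -(resolvent TT z (lp.single 2 [] 1)) x

theorem rv_sol {z : ℂ} (hz : z ∈ resolventSet ℂ TT) : tr.Sol (fun _ => 1) tt ww Set.univ z [] 1 (rv z) := by
  refine ⟨fun y hy => absurd (Set.mem_univ y) hy, ?_, fun y _ => ?_⟩
  · simpa [rv] using (mem_iff _).1 (resolvent TT z (lp.single 2 [] 1)).2
  · have h1 : (algebraMap ℂ _ z - TT) * resolvent TT z = 1 := Ring.mul_inverse_cancel _ hz
    set ψ := resolvent TT z (lp.single 2 [] 1) with hψ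
    have h2 : ((algebraMap ℂ _ z - TT) ψ) y = (lp.single 2 [] (1 : ℂ) : HH) y := by
      rw [hψ, ← ContinuousLinearMap.mul_apply, h1]; rfl
    have h3 : ((algebraMap ℂ _ z - TT) ψ) y = (algebraMap ℂ (HH →L[ℂ] HH) z ψ) y - TT ψ y := rfl
    rw [h3, alg_apply, TT_apply, lp.single_apply, Pi.single_apply] at h2
    have h4 := op_comb (τ := tr) (t := tt) (w := ww) (fun _ => 0) ψ 1 y
    have h5 : rv z = fun u => 0 - 1 * ψ u := by funext u; simp [rv, hψ]
    have h6 : tr.op tt ww (fun _ => 0) y = 0 := by simp [RTree.op]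
    rw [h5, h4, h6, ← h2]
    ring

/-- the polynomial system has a solution in the upper half plane -/
def Sig (E : ℝ) : Prop := ∃ ξ : Bool → ℂ, (∀ j, 0 < (ξ j).im) ∧
  ∀ j, ξ j * (E - pot j + ∑ k, ((2 : ℝ) : ℂ) * ξ k) + 1 = 0

theorem sig_spec {E : ℝ} (h : Sig E) : (E : ℂ) ∈ spectrum ℂ TT := by
  by_contra hE
  have hE' : (E : ℂ) ∈ resolventSet ℂ TT := by simpa [spectrum] using hE
  obtain ⟨ξ, hp, he⟩ := h
  set c : Bool → Bool → ℝ := fun _ _ => ((2 : ℕ) : ℝ) * 1 with hc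
  have c0 : ∀ j k, 0 < c j k := fun j k => by simp [hc]
  have hirr : ∀ j k, Relation.ReflTransGen (fun j k => 0 < c j k) j k :=
    fun j k => Relation.ReflTransGen.single (c0 j k)
  have hS : 0 < ∑ j, (ξ j).im := Finset.sum_pos (fun j _ => hp j) univ_nonempty
  have hr : ∀ j, ξ j * ((E : ℂ) - pot j + ∑ k, (c j k : ℂ) * ξ k) = -1 := fun j => by
    have := he j
    simp only [hc] at this ⊢
    push_cast at this ⊢
    simp only [mul_one]
    linear_combination this
  have hadm : Adm c pot E ξ (fun j => (∑ j, (ξ j).im)⁻¹ * (ξ j).im) := by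
    refine ⟨fun j => (hp j).le, hr, fun j => (mul_pos (inv_pos.2 hS) (hp j)).le,
      by rw [← Finset.mul_sum]; exact inv_mul_cancel₀ hS.ne', fun j => ?_⟩
    have h1 := im_of_rec (hr j)
    simp only [Complex.add_im, Complex.sub_im, Complex.ofReal_im, Complex.im_sum, Complex.im_ofReal_mul,
      sub_zero, zero_add] at h1
    have e : ∀ k, c j k * ((∑ j, (ξ j).im)⁻¹ * (ξ k).im) = (∑ j, (ξ j).im)⁻¹ * (c j k * (ξ k).im) :=
      fun k => by ring
    simp only [e, ← Finset.mul_sum]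
    rw [mul_left_comm, ← h1]
  set ρ : Bool → V := fun b => if b then [] else [(false, false)] with hρd
  have hρ : ∀ j, lab (ρ j) = j := fun j => by cases j <;> rfl
  set zs : ℕ → ℂ := fun n => (E : ℂ) + ((1 / ((n : ℝ) + 1) : ℝ) : ℂ) * Complex.I with hzs
  have hz : ∀ n : ℕ, 0 < (zs n).im := fun n => by
    have : (0 : ℝ) < 1 / ((n : ℝ) + 1) := by positivity
    simp only [hzs, Complex.add_im, Complex.mul_im, Complex.ofReal_re, Complex.I_im, Complex.ofReal_im,
      Complex.I_re]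
    linarith
  have ht : Tendsto zs atTop (𝓝 (E : ℂ)) := by
    have := (((Complex.continuous_ofReal.tendsto 0).comp
      tendsto_one_div_add_atTop_nhds_zero_nat).mul_const Complex.I).const_add (E : ℂ)
    simpa [hzs] using this
  have hA : ∀ n, ∃ v, Adm c pot (zs n) (fun j => tr.green (fun _ => 1) tt ww (tr.desc (ρ j)) (ρ j) (zs n)) v :=
    fun n => adm_of tr.ch lab (fun _ _ => 2) hcount (fun _ _ => 1) (fun _ _ => zero_le_one) pot (zs n) (hz n)
      (fun y => tr.green (fun _ => 1) tt ww (tr.desc y) y (zs n)) (fun y => by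
        rw [← recur (w := ww) good (hz n) (fun y => eps_sol good (hz n) (tr.desc y) y) y]
        unfold RTree.green
        rw [sum_ch, sum_ch]
        simp [tt1, tt2]) (fun y => sol_im good (hz n) (eps_sol good (hz n) _ _)) ρ hρ
  choose vs hvs using hA
  obtain ⟨g, v, φ, hφ, h1, h2⟩ := adm_seq (fun j k => (c0 j k).le) (fun j => c0 j j) hirr _ _ vs _ ht hvs
  rw [adm_unique (fun j k => (c0 j k).le) (fun j => c0 j j) hirr h2 hadm] at h1
  have h3 := tendsto_pi_nhds.1 h1 true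
  have ht' := ht.comp hφ.tendsto_atTop
  have h4 : Tendsto (fun n => rv (zs (φ n)) []) atTop (𝓝 (rv E [])) := by
    have a1 := (spectrum.hasDerivAt_resolvent_const_left hE').continuousAt.tendsto.comp ht'
    have a2 : Continuous fun B : HH →L[ℂ] HH => -(B (lp.single 2 [] 1)) [] :=
      ((lp.lipschitzWith_one_eval 2 []).continuous.comp
        (ContinuousLinearMap.apply ℂ HH (lp.single 2 [] 1)).continuous).neg
    exact (a2.tendsto _).comp a1
  have h5 : rv E [] = ξ true := by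
    refine tendsto_nhds_unique (h4.congr' ?_) h3
    filter_upwards [ht' ((spectrum.isOpen_resolventSet TT).mem_nhds hE')] with n hn
    exact root_val good (hz _) (eps_sol good (hz _) _ _) (rv_sol hn)
  have h6 := green good (rv_sol hE')
  rw [h5] at h6
  simp at h6
  exact (hp true).ne h6

theorem not_sig0 : ¬ Sig 0 := by
  rintro ⟨ξ, hp, he⟩
  have a := he true
  have b := he false
  simp only [pot, Fintype.sum_bool, if_true, Bool.false_eq_true, if_false] at a b
  push_cast at a b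
  have h : (ξ true + ξ false) ^ 3 = 0 := by
    linear_combination ((ξ true + ξ false + 1) / 2) * a + ((ξ true + ξ false - 1) / 2) * b
  have h2 := congrArg Complex.im (pow_eq_zero_iff (by norm_num) |>.1 h)
  simp only [Complex.add_im, Complex.zero_im] at h2
  linarith [hp true, hp false]

theorem sig_of_root {E ρ : ℝ} (h1 : ρ ^ 3 - E * ρ ^ 2 + 4 * E = 0) (h2 : 0 < (ρ - E) * (3 * ρ + E)) : Sig E := by
  set D := √((ρ - E) * (3 * ρ + E)) with hD
  have hDp : 0 < D := Real.sqrt_pos.2 h2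
  have hD2 : (D : ℂ) ^ 2 = (ρ - E) * (3 * ρ + E) := by exact_mod_cast Real.sq_sqrt h2.le
  have h1' : (ρ : ℂ) ^ 3 - E * ρ ^ 2 + 4 * E = 0 := by exact_mod_cast h1
  set u : ℂ := (((E - ρ) / 2 : ℝ) : ℂ) + ((D / 2 : ℝ) : ℂ) * Complex.I with hu
  have hui : 0 < u.im := by simp [hu]; exact hDp
  have hq : u ^ 2 + (ρ - E) * u + ρ * (ρ - E) = 0 := by
    rw [hu]; push_cast
    linear_combination (D ^ 2 / 4 : ℂ) * Complex.I_sq - (1 / 4 : ℂ) * hD2
  have hcub : u ^ 3 - E * u ^ 2 + 4 * E = 0 := by linear_combination (u - ρ) * hq + h1'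
  have hne : ∀ r : ℝ, u - r ≠ 0 := fun r h => by
    have := congrArg Complex.im h
    simp only [Complex.sub_im, Complex.ofReal_im, Complex.zero_im] at this
    linarith
  have n1 : u - 2 ≠ 0 := by simpa using hne 2
  have n2 : u + 2 ≠ 0 := by simpa using hne (-2)
  have hs : (E : ℂ) + ∑ k, ((2 : ℝ) : ℂ) * (-(u - pot k)⁻¹) = u := by
    simp only [pot, Fintype.sum_bool, if_true, Bool.false_eq_true, if_false]
    push_cast
    rw [sub_neg_eq_add]
    field_simp
    linear_combination (-1 : ℂ) * hcub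
  refine ⟨fun j => -(u - pot j)⁻¹, fun j => ?_, fun j => ?_⟩
  · simp only [Complex.neg_im, Complex.inv_im, Complex.sub_im, Complex.ofReal_im, sub_zero, neg_div, neg_neg]
    exact div_pos hui (Complex.normSq_pos.2 (hne _))
  · have : (E : ℂ) - pot j + ∑ k, ((2 : ℝ) : ℂ) * (-(u - pot k)⁻¹) = u - pot j := by linear_combination hs
    rw [this, neg_mul, inv_mul_cancel₀ (hne _)]
    ring

theorem sig_of {E : ℝ} (h0 : E ≠ 0) (h1 : -(3 * √3) < E) (h2 : E < 3 * √3) : Sig E := by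
  have h3 : √3 ^ 2 = 3 := Real.sq_sqrt (by norm_num)
  have h4 : √3 < 2 := (Real.sqrt_lt' two_pos).2 (by norm_num)
  have h5 : E ^ 2 < 27 := by nlinarith
  have hc : Continuous fun ρ : ℝ => ρ ^ 3 - E * ρ ^ 2 + 4 * E := by fun_prop
  rcases h0.lt_or_gt with h | h
  · obtain ⟨ρ, hρ, e⟩ := intermediate_value_Ioo (a := -E / 3) (b := 2) (by linarith) hc.continuousOn
      (show (0 : ℝ) ∈ _ from ⟨by beta_reduce; nlinarith, by beta_reduce; nlinarith⟩)
    exact sig_of_root e (mul_pos (by linarith [hρ.1]) (by linarith [hρ.1]))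
  · obtain ⟨ρ, hρ, e⟩ := intermediate_value_Ioo (a := -2) (b := -E / 3) (by linarith) hc.continuousOn
      (show (0 : ℝ) ∈ _ from ⟨by beta_reduce; nlinarith, by beta_reduce; nlinarith⟩)
    exact sig_of_root e (mul_pos_of_neg_of_neg (by linarith [hρ.2]) (by linarith [hρ.2]))

theorem spec_eq : {E : ℝ | (E : ℂ) ∈ spectrum ℂ TT} = Set.Icc (-(3 * √3)) (3 * √3) := by
  have hp : 0 < 3 * √3 := by positivity
  refine Set.Subset.antisymm (fun E hE => ⟨?_, ?_⟩) ?_
  · have := (abs_le.1 (spec_bd (-1) (Or.inr rfl) E hE)).1; linarith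
  · have := (abs_le.1 (spec_bd 1 (Or.inl rfl) E hE)).2; linarith
  · have hcl : IsClosed {E : ℝ | (E : ℂ) ∈ spectrum ℂ TT} :=
      (spectrum.isClosed TT).preimage Complex.continuous_ofReal
    rw [← Set.Icc_union_Icc_eq_Icc (b := 0) (by linarith) hp.le, ← closure_Ioo (by linarith),
      ← closure_Ioo hp.ne]
    refine Set.union_subset (closure_minimal (fun E hE => ?_) hcl) (closure_minimal (fun E hE => ?_) hcl)
    · exact sig_spec (sig_of hE.2.ne hE.1 (hE.2.trans hp))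
    · exact sig_spec (sig_of hE.1.ne' (by linarith [hE.1]) hE.2)

end Pool.Agent.H.MP_750254_mp
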